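import Pool.Agent.U174.AK.Stm

/-!
# Project AK, package SYNE: syntax of the languages, embeddings preserve quantifier-free formulas
-/

set_option autoImplicit false

namespace Pool.Agent.U978.AK

open Pool.Agent.U174.AK IsLocalRing

deriving instance Countable for FT
deriving instance Countable for RQ
deriving instance Countable for GT
deriving instance Countable for GQ

/-- renaming of the variables in a ring term -/
def ftMap {X Y : Type} (g : X → Y) : FT X → FT Y
  | .var x => .var (g x)
  | .zero => .zero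
  | .one => .one
  | .add s t => .add (ftMap g s) (ftMap g t)
  | .neg s => .neg (ftMap g s)
  | .mul s t => .mul (ftMap g s) (ftMap g t)

theorem ftMap_eval {X Y A : Type} [CommRing A] (g : X → Y) (s : FT X) (e : Y → A) :
    (ftMap g s).eval e = s.eval (e ∘ g) := by
  induction s with
  | var x => rfl
  | zero => rfl
  | one => rfl
  | add s t hs ht => simp only [ftMap, FT.eval, hs, ht]
  | neg s hs => simp only [ftMap, FT.eval, hs]
  | mul s t hs ht => simp only [ftMap, FT.eval, hs, ht]

/-- renaming of the variables in a formula of the language of rings -/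
def rqMap {X Y : Type} (g : X → Y) : RQ X → RQ Y
  | .eq s t => .eq (ftMap g s) (ftMap g t)
  | .not φ => .not (rqMap g φ)
  | .and φ ψ => .and (rqMap g φ) (rqMap g ψ)
  | .or φ ψ => .or (rqMap g φ) (rqMap g ψ)

theorem rqMap_holds {X Y A : Type} [CommRing A] (g : X → Y) (φ : RQ X) (e : Y → A) :
    RQ.holds A Y (rqMap g φ) e ↔ RQ.holds A X φ (e ∘ g) := by
  induction φ with
  | eq s t => simp only [rqMap, RQ.holds, ftMap_eval]
  | not φ h => simp only [rqMap, RQ.holds, h]
  | and φ ψ h h' => simp only [rqMap, RQ.holds, h, h']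
  | or φ ψ h h' => simp only [rqMap, RQ.holds, h, h']

theorem ft_supp {X A : Type} [CommRing A] (t : FT X) :
    ∃ s : Finset X, ∀ e e' : X → A, (∀ x ∈ s, e x = e' x) → t.eval e = t.eval e' := by
  classical
  induction t with
  | var x => exact ⟨{x}, fun e e' h => h x (Finset.mem_singleton_self x)⟩
  | zero => exact ⟨∅, fun _ _ _ => rfl⟩
  | one => exact ⟨∅, fun _ _ _ => rfl⟩
  | add s t hs ht =>
    obtain ⟨a, ha⟩ := hs
    obtain ⟨b, hb⟩ := ht
    refine ⟨a ∪ b, fun e e' h => ?_⟩
    simp only [FT.eval]
    rw [ha e e' fun x hx => h x (Finset.mem_union_left _ hx),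
      hb e e' fun x hx => h x (Finset.mem_union_right _ hx)]
  | neg s hs =>
    obtain ⟨a, ha⟩ := hs
    refine ⟨a, fun e e' h => ?_⟩
    simp only [FT.eval]
    rw [ha e e' h]
  | mul s t hs ht =>
    obtain ⟨a, ha⟩ := hs
    obtain ⟨b, hb⟩ := ht
    refine ⟨a ∪ b, fun e e' h => ?_⟩
    simp only [FT.eval]
    rw [ha e e' fun x hx => h x (Finset.mem_union_left _ hx),
      hb e e' fun x hx => h x (Finset.mem_union_right _ hx)]

theorem rq_supp {X A : Type} [CommRing A] (φ : RQ X) :
    ∃ s : Finset X, ∀ e e' : X → A, (∀ x ∈ s, e x = e' x) →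
      (RQ.holds A X φ e ↔ RQ.holds A X φ e') := by
  classical
  induction φ with
  | eq s t =>
    obtain ⟨a, ha⟩ := ft_supp (A := A) s
    obtain ⟨b, hb⟩ := ft_supp (A := A) t
    refine ⟨a ∪ b, fun e e' h => ?_⟩
    simp only [RQ.holds]
    rw [ha e e' fun x hx => h x (Finset.mem_union_left _ hx),
      hb e e' fun x hx => h x (Finset.mem_union_right _ hx)]
  | not φ hφ =>
    obtain ⟨a, ha⟩ := hφ
    refine ⟨a, fun e e' h => ?_⟩
    simp only [RQ.holds]
    rw [ha e e' h]
  | and φ ψ hφ hψ =>
    obtain ⟨a, ha⟩ := hφ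
    obtain ⟨b, hb⟩ := hψ
    refine ⟨a ∪ b, fun e e' h => ?_⟩
    simp only [RQ.holds]
    rw [ha e e' fun x hx => h x (Finset.mem_union_left _ hx),
      hb e e' fun x hx => h x (Finset.mem_union_right _ hx)]
  | or φ ψ hφ hψ =>
    obtain ⟨a, ha⟩ := hφ
    obtain ⟨b, hb⟩ := hψ
    refine ⟨a ∪ b, fun e e' h => ?_⟩
    simp only [RQ.holds]
    rw [ha e e' fun x hx => h x (Finset.mem_union_left _ hx),
      hb e e' fun x hx => h x (Finset.mem_union_right _ hx)]

/-- the syntax of the language of rings -/
def synR : Syn RQ where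
  ren := rqMap
  tt := .eq .zero .zero
  not := .not
  and := .and
  or := .or
  cnt _ _ := inferInstance

theorem semR (A : Type) [CommRing A] : Sem synR (RQ.holds A) where
  ren g φ e := rqMap_holds g φ e
  tt _ := by simp only [synR, RQ.holds]
  not _ _ := by simp only [synR, RQ.holds]
  and _ _ _ := by simp only [synR, RQ.holds]
  or _ _ _ := by simp only [synR, RQ.holds]
  supp φ := rq_supp φ

/-- renaming of the variables in a group term -/
def gtMap {X Y : Type} (g : X → Y) : GT X → GT Y
  | .var x => .var (g x)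
  | .zero => .zero
  | .add s t => .add (gtMap g s) (gtMap g t)
  | .neg s => .neg (gtMap g s)

theorem gtMap_eval {X Y A : Type} [CommGroup A] (g : X → Y) (s : GT X) (e : Y → A) :
    (gtMap g s).eval e = s.eval (e ∘ g) := by
  induction s with
  | var x => rfl
  | zero => rfl
  | add s t hs ht => simp only [gtMap, GT.eval, hs, ht]
  | neg s hs => simp only [gtMap, GT.eval, hs]

/-- renaming of the variables in a formula of the language of ordered groups -/
def gqMap {X Y : Type} (g : X → Y) : GQ X → GQ Y
  | .eq s t => .eq (gtMap g s) (gtMap g t)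
  | .le s t => .le (gtMap g s) (gtMap g t)
  | .not φ => .not (gqMap g φ)
  | .and φ ψ => .and (gqMap g φ) (gqMap g ψ)
  | .or φ ψ => .or (gqMap g φ) (gqMap g ψ)

theorem gqMap_holds {X Y A : Type} [CommGroup A] [LinearOrder A] (g : X → Y) (φ : GQ X)
    (e : Y → A) : GQ.holds A Y (gqMap g φ) e ↔ GQ.holds A X φ (e ∘ g) := by
  induction φ with
  | eq s t => simp only [gqMap, GQ.holds, gtMap_eval]
  | le s t => simp only [gqMap, GQ.holds, gtMap_eval]
  | not φ h => simp only [gqMap, GQ.holds, h]
  | and φ ψ h h' => simp only [gqMap, GQ.holds, h, h']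
  | or φ ψ h h' => simp only [gqMap, GQ.holds, h, h']

theorem gt_supp {X A : Type} [CommGroup A] (t : GT X) :
    ∃ s : Finset X, ∀ e e' : X → A, (∀ x ∈ s, e x = e' x) → t.eval e = t.eval e' := by
  classical
  induction t with
  | var x => exact ⟨{x}, fun e e' h => h x (Finset.mem_singleton_self x)⟩
  | zero => exact ⟨∅, fun _ _ _ => rfl⟩
  | add s t hs ht =>
    obtain ⟨a, ha⟩ := hs
    obtain ⟨b, hb⟩ := ht
    refine ⟨a ∪ b, fun e e' h => ?_⟩
    simp only [GT.eval]
    rw [ha e e' fun x hx => h x (Finset.mem_union_left _ hx),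
      hb e e' fun x hx => h x (Finset.mem_union_right _ hx)]
  | neg s hs =>
    obtain ⟨a, ha⟩ := hs
    refine ⟨a, fun e e' h => ?_⟩
    simp only [GT.eval]
    rw [ha e e' h]

theorem gq_supp {X A : Type} [CommGroup A] [LinearOrder A] (φ : GQ X) :
    ∃ s : Finset X, ∀ e e' : X → A, (∀ x ∈ s, e x = e' x) →
      (GQ.holds A X φ e ↔ GQ.holds A X φ e') := by
  classical
  induction φ with
  | eq s t =>
    obtain ⟨a, ha⟩ := gt_supp (A := A) s
    obtain ⟨b, hb⟩ := gt_supp (A := A) t
    refine ⟨a ∪ b, fun e e' h => ?_⟩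
    simp only [GQ.holds]
    rw [ha e e' fun x hx => h x (Finset.mem_union_left _ hx),
      hb e e' fun x hx => h x (Finset.mem_union_right _ hx)]
  | le s t =>
    obtain ⟨a, ha⟩ := gt_supp (A := A) s
    obtain ⟨b, hb⟩ := gt_supp (A := A) t
    refine ⟨a ∪ b, fun e e' h => ?_⟩
    simp only [GQ.holds]
    rw [ha e e' fun x hx => h x (Finset.mem_union_left _ hx),
      hb e e' fun x hx => h x (Finset.mem_union_right _ hx)]
  | not φ hφ =>
    obtain ⟨a, ha⟩ := hφ
    refine ⟨a, fun e e' h => ?_⟩
    simp only [GQ.holds]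
    rw [ha e e' h]
  | and φ ψ hφ hψ =>
    obtain ⟨a, ha⟩ := hφ
    obtain ⟨b, hb⟩ := hψ
    refine ⟨a ∪ b, fun e e' h => ?_⟩
    simp only [GQ.holds]
    rw [ha e e' fun x hx => h x (Finset.mem_union_left _ hx),
      hb e e' fun x hx => h x (Finset.mem_union_right _ hx)]
  | or φ ψ hφ hψ =>
    obtain ⟨a, ha⟩ := hφ
    obtain ⟨b, hb⟩ := hψ
    refine ⟨a ∪ b, fun e e' h => ?_⟩
    simp only [GQ.holds]
    rw [ha e e' fun x hx => h x (Finset.mem_union_left _ hx),
      hb e e' fun x hx => h x (Finset.mem_union_right _ hx)]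

/-- the syntax of the language of ordered groups -/
def synG : Syn GQ where
  ren := gqMap
  tt := .eq .zero .zero
  not := .not
  and := .and
  or := .or
  cnt _ _ := inferInstance

theorem semG (A : Type) [CommGroup A] [LinearOrder A] : Sem synG (GQ.holds A) where
  ren g φ e := gqMap_holds g φ e
  tt _ := by simp only [synG, GQ.holds]
  not _ _ := by simp only [synG, GQ.holds]
  and _ _ _ := by simp only [synG, GQ.holds]
  or _ _ _ := by simp only [synG, GQ.holds]
  supp φ := gq_supp φ

theorem t_SYN : S_SYN := ⟨⟨synR, fun A _ => semR A⟩, ⟨synG, fun A _ _ => semG A⟩⟩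

/-! ### embeddings -/

section
variable {F K : Type} [Field F] [Field K] {O : ValuationSubring F} {P : ValuationSubring K}
  {X Y Z : Type}

theorem ft_emb (f : F →+* K) (t : FT X) (x : X → F) :
    t.eval (fun k => f (x k)) = f (t.eval x) := by
  induction t with
  | var x => rfl
  | zero => exact (map_zero f).symm
  | one => exact (map_one f).symm
  | add s t hs ht => simp only [FT.eval, hs, ht, map_add]
  | neg s hs => simp only [FT.eval, hs, map_neg]
  | mul s t hs ht => simp only [FT.eval, hs, ht, map_mul]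

theorem rt_emb (i : VEmb O P) (t : RT X Y) (x : X → F) (y : Y → ResidueField O) :
    t.eval P (fun k => i.f (x k)) (fun k => i.res (y k)) = i.res (t.eval O x y) := by
  induction t with
  | var x => rfl
  | zero => exact (map_zero i.res).symm
  | one => exact (map_one i.res).symm
  | add s t hs ht => simp only [RT.eval, hs, ht, map_add]
  | neg s hs => simp only [RT.eval, hs, map_neg]
  | mul s t hs ht => simp only [RT.eval, hs, ht, map_mul]
  | res s => simp only [RT.eval, ft_emb, VEmb.res_rs]

theorem vt_emb (i : VEmb O P) (t : VT X Z) (x : X → F) (z : Z → O.ValueGroup) :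
    t.eval P (fun k => i.f (x k)) (fun k => i.val (z k)) = i.val (t.eval O x z) := by
  induction t with
  | var x => rfl
  | zero => exact (map_one i.val).symm
  | infty => exact (map_zero i.val).symm
  | add s t hs ht => simp only [VT.eval, hs, ht, map_mul]
  | neg s hs => simp only [VT.eval, hs, map_inv₀]
  | val s => simp only [VT.eval, ft_emb, VEmb.val_valuation]

end

theorem t_EMB : S_EMB := by
  intro F K _ _ O P i X Y Z φ x y z
  induction φ with
  | eqF s t =>
    simp only [Q3.Holds, ft_emb]
    exact i.f.injective.eq_iff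
  | eqR s t =>
    simp only [Q3.Holds, rt_emb]
    exact i.res.injective.eq_iff
  | eqV s t =>
    simp only [Q3.Holds, vt_emb]
    exact i.val_strictMono.injective.eq_iff
  | leV s t =>
    simp only [Q3.Holds, vt_emb]
    exact i.val_strictMono.le_iff_le
  | not φ h => simp only [Q3.Holds, h]
  | and φ ψ h h' => simp only [Q3.Holds, h, h']
  | or φ ψ h h' => simp only [Q3.Holds, h, h']

end Pool.Agent.U978.AK
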